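import Pool.Agent.helper93.ADV.SpecU

/-!
# adv:WNF (MP_069684_lc)
-/

set_option autoImplicit false

namespace Pool.Agent.ADV

open Finset Pool.Agent.helper38.Neg Pool.Agent.helper55.NT Pool.Agent.LNB

/-- the slice functions, alternating -/
def WNF_G {n : ℕ} (k : ℕ) (f : Fn n) (i : ℕ) : Fn n :=
  win (k + i) 1 (if i % 2 = 0 then f else fun x => !(f x))

theorem WNF_lo {n : ℕ} (k : ℕ) (f : Fn n) (i : ℕ) (x : Fin n → Bool) (h : wt x < k + i) :
    WNF_G k f i x = false := by
  unfold WNF_G win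
  rw [decide_eq_false (by omega), decide_eq_false (by omega)]
  simp

theorem WNF_hi {n : ℕ} (k : ℕ) (f : Fn n) (i : ℕ) (x : Fin n → Bool) (h : k + i + 1 ≤ wt x) :
    WNF_G k f i x = true := by
  unfold WNF_G win
  rw [decide_eq_true h]
  simp

theorem WNF_ev {n : ℕ} (k : ℕ) (f : Fn n) (i : ℕ) (x : Fin n → Bool) (h : wt x = k + 2 * i) :
    WNF_G k f (2 * i) x = f x := by
  unfold WNF_G win
  rw [decide_eq_false (by omega), decide_eq_true (by omega), if_pos (by omega)]
  simp

theorem WNF_od {n : ℕ} (k : ℕ) (f : Fn n) (i : ℕ) (x : Fin n → Bool) (h : wt x = k + (2 * i + 1)) :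
    WNF_G k f (2 * i + 1) x = !(f x) := by
  unfold WNF_G win
  rw [decide_eq_false (by omega), decide_eq_true (by omega), if_neg (by omega)]
  simp

theorem WNF_and {n : ℕ} (k : ℕ) (f : Fn n) (i : ℕ) (x : Fin n → Bool) :
    (WNF_G k f (2 * i) x && !(WNF_G k f (2 * i + 1) x)) =
      (decide (k + 2 * i ≤ wt x ∧ wt x < k + 2 * (i + 1)) && f x) := by
  rcases lt_or_ge (wt x) (k + 2 * i) with h | h
  · rw [WNF_lo k f (2 * i) x h, decide_eq_false (by omega)]
    simp
  rcases h.eq_or_lt with h | h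
  · rw [WNF_ev k f i x h.symm, WNF_lo k f (2 * i + 1) x (by omega), decide_eq_true (by omega)]
    simp
  rcases (Nat.succ_le_of_lt h).eq_or_lt with h1 | h1
  · rw [WNF_hi k f (2 * i) x (by omega), WNF_od k f i x (by omega), decide_eq_true (by omega)]
    simp
  · rw [WNF_hi k f (2 * i + 1) x (by omega), decide_eq_false (by omega)]
    simp

theorem WNF_rel (hSLF : SLF_stmt) {n s : ℕ} (k : ℕ) (C : Circuit n s) (o : Fin (n + s)) (i : ℕ) :
    Rel ∅ (2 * (n + 2) ^ 3 + 2 * (s + 1) + 2) 0 {WNF_G k (fun x => C.val x o) i} := by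
  by_cases hi : i % 2 = 0
  · have h := hSLF n s (k + i) C o
    refine h.mono le_rfl ?_ (by omega) le_rfl
    rintro g rfl
    rw [Set.mem_singleton_iff]
    unfold WNF_G
    rw [if_pos hi]
  · have h := hSLF n (s + 1) (k + i) (Circuit.snoc C (Gate.not o)) (Fin.last (n + s))
    refine h.mono le_rfl ?_ (by omega) le_rfl
    rintro g rfl
    rw [Set.mem_singleton_iff]
    unfold WNF_G
    rw [if_neg hi]
    have e : (fun x => (Circuit.snoc C (Gate.not o)).val x (Fin.last (n + s))) =
        fun x => !(C.val x o) := by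
      funext x
      simp [Circuit.val, Gate.eval]
    rw [e]

theorem WNF (hSLF : SLF_stmt) : WNF_stmt := by
  intro n s k r C o
  obtain ⟨m, hm⟩ : ∃ m, 2 ^ r = m + 1 := ⟨2 ^ r - 1, by
    have : 0 < 2 ^ r := by positivity
    omega⟩
  have hm2 : 2 ^ (r + 1) = 2 * m + 2 := by rw [pow_succ, hm]; ring
  set f : Fn n := fun x => C.val x o with hf
  set M : ℕ := 2 * (n + 2) ^ 3 + 2 * (s + 1) + 2 with hM
  set t : ℕ → Fn n := fun i => WNF_G k f (2 * i + 1) with ht
  have hsort : ∀ j x, t (j + 1) x = true → t j x = true := by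
    intro j x h
    apply WNF_hi
    by_contra hlt
    have h2 : t (j + 1) x = false := WNF_lo k f _ x (by omega)
    rw [h2] at h
    exact Bool.noConfusion h
  set A : Set (Fn n) := ⋃ i ∈ Finset.range (2 * m + 1), {WNF_G k f i} with hA
  have hmA : ∀ i, i < 2 * m + 1 → WNF_G k f i ∈ A := by
    intro i hi
    simp only [hA, Set.mem_iUnion]
    exact ⟨i, Finset.mem_range.2 hi, rfl⟩
  have h1 : Rel ∅ ((2 * m + 1) * M) 0 A := by
    have := Rel.biUnion (F := (∅ : Set (Fn n))) (Finset.range (2 * m + 1)) (fun i => {WNF_G k f i})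
      (fun i _ => WNF_rel hSLF k C o i)
    rwa [Finset.card_range] at this
  have h2 : Rel A (4 * 2 ^ r) r (Ns r t) := by
    refine (inv_rel r t hsort).mono ?_ subset_rfl le_rfl le_rfl
    intro g hg
    simp only [As, Set.mem_iUnion, Set.mem_singleton_iff, Finset.mem_range] at hg
    obtain ⟨j, hj, rfl⟩ := hg
    exact hmA _ (by omega)
  have hN : ∀ j < m, (fun x => !(t j x)) ∈ Ns r t := fun j hj => mem_Ns (by omega)
  set F : Set (Fn n) := A ∪ Ns r t with hF
  have h3 : ∀ i ≤ m, Rel F (2 * i + 1) 0 {fun x => decide (k ≤ wt x ∧ wt x < k + 2 * i) && f x} := by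
    intro i
    induction i with
    | zero =>
      intro _
      refine (Rel.const F false).mono le_rfl ?_ (by omega) le_rfl
      rintro g rfl
      rw [Set.mem_singleton_iff]
      funext x
      rw [decide_eq_false (by omega)]
      simp
    | succ i ih =>
      intro hi
      have h5 := ih (by omega)
      have h6 : Rel F 1 0 {fun x => WNF_G k f (2 * i) x && (!(t i x))} :=
        Rel.and (Or.inl (hmA _ (by omega))) (Or.inr (hN i (by omega)))
      have h7 := h5.union h6
      have h8 : Rel (F ∪ ({fun x => decide (k ≤ wt x ∧ wt x < k + 2 * i) && f x} ∪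
          {fun x => WNF_G k f (2 * i) x && (!(t i x))})) 1 0
          {fun x => (decide (k ≤ wt x ∧ wt x < k + 2 * i) && f x) ||
            (WNF_G k f (2 * i) x && (!(t i x)))} :=
        Rel.or (u := fun x => decide (k ≤ wt x ∧ wt x < k + 2 * i) && f x)
          (v := fun x => WNF_G k f (2 * i) x && (!(t i x)))
          (Or.inr (Or.inl rfl)) (Or.inr (Or.inr rfl))
      refine (h7.trans' h8).mono le_rfl ?_ (by omega) le_rfl
      rintro g rfl
      rw [Set.mem_singleton_iff]
      funext x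
      have h9 : (WNF_G k f (2 * i) x && !(t i x)) =
        (decide (k + 2 * i ≤ wt x ∧ wt x < k + 2 * (i + 1)) && f x) := WNF_and k f i x
      rw [h9, Bool.eq_iff_iff]
      simp only [Bool.and_eq_true, Bool.or_eq_true, decide_eq_true_eq]
      constructor
      · rintro ⟨⟨a1, a2⟩, a3⟩
        by_cases a4 : wt x < k + 2 * i
        · exact Or.inl ⟨⟨a1, a4⟩, a3⟩
        · exact Or.inr ⟨⟨by omega, a2⟩, a3⟩
      · rintro (⟨⟨a1, a2⟩, a3⟩ | ⟨⟨a1, a2⟩, a3⟩)
        · exact ⟨⟨a1, by omega⟩, a3⟩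
        · exact ⟨⟨by omega, a2⟩, a3⟩
  have h4 := h3 m le_rfl
  have h5 : Rel (F ∪ {fun x => decide (k ≤ wt x ∧ wt x < k + 2 * m) && f x}) 1 0
      {fun x => (decide (k ≤ wt x ∧ wt x < k + 2 * m) && f x) || WNF_G k f (2 * m) x} :=
    Rel.or (u := fun x => decide (k ≤ wt x ∧ wt x < k + 2 * m) && f x) (Or.inr rfl)
      (Or.inl (Or.inl (hmA _ (by omega))))
  have h6 := h4.trans' h5
  have h7 := h2.trans' (H := {fun x => (decide (k ≤ wt x ∧ wt x < k + 2 * m) && f x) ||
    WNF_G k f (2 * m) x}) h6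
  have h8 := h1.trans' (h7.mono (F' := ∅ ∪ A) Set.subset_union_right le_rfl le_rfl le_rfl)
  refine h8.mono le_rfl ?_ ?_ (by omega)
  · rintro g rfl
    rw [Set.mem_singleton_iff]
    funext x
    have hK : 2 ^ (r + 1) - 1 = 2 * m + 1 := by omega
    rw [hK]
    show win k (2 * m + 1) f x =
      ((decide (k ≤ wt x ∧ wt x < k + 2 * m) && f x) || WNF_G k f (2 * m) x)
    rcases lt_trichotomy (wt x) (k + 2 * m) with h | h | h
    · rw [WNF_lo k f _ x h]
      unfold win
      rw [decide_eq_false (by omega : ¬ k + (2 * m + 1) ≤ wt x)]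
      have e : decide (k ≤ wt x ∧ wt x < k + 2 * m) = decide (k ≤ wt x) := by
        rw [decide_eq_decide]
        exact ⟨fun a => a.1, fun a => ⟨a, h⟩⟩
      rw [e]
      simp
    · rw [WNF_ev k f m x h]
      unfold win
      rw [decide_eq_false (by omega : ¬ k + (2 * m + 1) ≤ wt x), decide_eq_true (by omega : k ≤ wt x),
        decide_eq_false (by omega)]
      simp
    · rw [WNF_hi k f _ x (by omega)]
      unfold win
      rw [decide_eq_true (by omega : k + (2 * m + 1) ≤ wt x)]
      simp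
  · rw [hm2, hm]
    have e : 2 * (n + 2) ^ 3 + 2 * s + 10 = M + 6 := by omega
    rw [e]
    have e1 : (2 * m + 1) * M + M = (2 * m + 2) * M := by ring
    have e2 : (2 * m + 2) * (M + 6) = (2 * m + 2) * M + (2 * m + 2) * 6 := by ring
    rw [e2]
    generalize (2 * m + 1) * M = a at e1 ⊢
    generalize (2 * m + 2) * M = b at e1 ⊢
    omega

end Pool.Agent.ADV
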