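import Pool.Agent.helper93.ADV.SpecW

/-!
# adv:UP2 (MP_069684_lc)
-/

set_option autoImplicit false

namespace Pool.Agent.ADV

open Finset Pool.Agent.helper38.Neg Pool.Agent.helper55.NT Pool.Agent.LNB

theorem UP2_key (hWMC : WMC_stmt) (hAV2 : AV2_stmt) {n s u b r : ℕ} (C : Circuit n s) (o : Fin (n + s))
    (hm : MonoIn u (fun x => C.val x o = true)) (hb : 1 ≤ b) {D : (Fin n → Bool) → ℝ} (hD : IsDist D)
    (hr : 2 ^ r ≤ 4 * n + 2) :
    ∃ s' ≤ 18 * b * (s + 5 * n + 7) * (n + n + 2) ^ (b + 2) + 2 * (n + n + 2) ^ 2 + n + 3,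
      ∃ (C' : Circuit n s') (o' : Fin (n + s')), FewDep u r C' ∧
        1 / (4 * ((min u n / (b * 2 ^ r) : ℕ) : ℝ) + 2) ≤
          adv D (fun x => C.val x o = true) fun x => C'.val x o' := by
  have hK : 1 ≤ b * 2 ^ r := Nat.mul_pos hb (by positivity)
  obtain ⟨w, hw | hw⟩ := hAV2 n u (b * 2 ^ r) hK (fun x => C.val x o) D hD
  · obtain ⟨s', hs', C', o', h1, h2⟩ := hWMC n s u b r w C o hm hb hr
    refine ⟨s', hs'.trans ?_, C', o', h1, ?_⟩
    · have : 18 * b * (s + 5 * n + 6) * (n + n + 2) ^ (b + 2) ≤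
          18 * b * (s + 5 * n + 7) * (n + n + 2) ^ (b + 2) := by
        exact Nat.mul_le_mul_right _ (Nat.mul_le_mul_left _ (by omega))
      exact Nat.add_le_add_right (Nat.add_le_add_right (Nat.add_le_add_right this _) _) _
    · have e : (fun x => C'.val x o') = winu u w (b * 2 ^ r) (fun x => C.val x o) := funext h2
      rw [e]
      exact hw
  · have hc : ∀ x, (Circuit.snoc (Circuit.nil : Circuit n 0) (Gate.const false)).val x (Fin.last (n + 0)) =
        false := by
      intro x
      simp [Circuit.val, Gate.eval]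
    obtain ⟨s', hs', C', o', h1, h2⟩ := hWMC n 1 u b r w
      (Circuit.snoc (Circuit.nil : Circuit n 0) (Gate.const false)) (Fin.last (n + 0))
      (fun x y _ _ h => absurd ((hc x).symm.trans h) (by simp)) hb hr
    refine ⟨s', hs'.trans ?_, C', o', h1, ?_⟩
    · have : 18 * b * (1 + 5 * n + 6) * (n + n + 2) ^ (b + 2) ≤
          18 * b * (s + 5 * n + 7) * (n + n + 2) ^ (b + 2) := by
        exact Nat.mul_le_mul_right _ (Nat.mul_le_mul_left _ (by omega))
      exact Nat.add_le_add_right (Nat.add_le_add_right (Nat.add_le_add_right this _) _) _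
    · have e : (fun x => C'.val x o') = winu u w (b * 2 ^ r) (fun _ => false) := by
        funext z
        have e1 : (fun x => (Circuit.snoc (Circuit.nil : Circuit n 0) (Gate.const false)).val x
          (Fin.last (n + 0))) = fun _ => false := funext hc
        rw [h2 z, e1]
      rw [e]
      exact hw

theorem UP2 (hWMC : WMC_stmt) (hAV2 : AV2_stmt) : UP2_stmt := by
  intro n s u b r C o hm hb D hD
  by_cases hr : 2 ^ r ≤ 4 * n + 2
  · exact UP2_key hWMC hAV2 C o hm hb hD hr
  · push Not at hr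
    set m : ℕ := min u n with hmdef
    have hmn : m ≤ n := min_le_right _ _
    set r' : ℕ := Nat.clog 2 (m + 1) with hr'
    have h1 : m + 1 ≤ 2 ^ r' := Nat.le_pow_clog (by norm_num) _
    have h2 : 2 ^ r' ≤ 2 * (m + 1) := by
      rcases Nat.eq_zero_or_pos m with h0 | hpos
      · rw [hr', h0]
        simp
      · have h4 := Nat.pow_pred_clog_lt_self (b := 2) (by norm_num) (show 1 < m + 1 by omega)
        have h5 : 0 < Nat.clog 2 (m + 1) := Nat.clog_pos (by norm_num) (by omega)
        have h6 : 2 ^ Nat.clog 2 (m + 1) = 2 * 2 ^ (Nat.clog 2 (m + 1)).pred := by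
          rw [← pow_succ']
          congr 1
          simp only [Nat.pred_eq_sub_one]
          omega
        rw [hr', h6]
        omega
    have h3 : r' ≤ r := by
      by_contra hlt
      push Not at hlt
      have := Nat.pow_le_pow_right (show 1 ≤ 2 by norm_num) hlt.le
      omega
    obtain ⟨s', hs', C', o', ⟨S, hS, hS'⟩, h4⟩ := UP2_key hWMC hAV2 C o hm hb hD (r := r') (by omega)
    refine ⟨s', hs', C', o', ⟨S, hS.trans h3, hS'⟩, ?_⟩
    have e1 : min u n / (b * 2 ^ r') = 0 := by
      apply Nat.div_eq_of_lt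
      have : 2 ^ r' ≤ b * 2 ^ r' := Nat.le_mul_of_pos_left _ hb
      omega
    have e2 : min u n / (b * 2 ^ r) = 0 := by
      apply Nat.div_eq_of_lt
      have : 2 ^ r ≤ b * 2 ^ r := Nat.le_mul_of_pos_left _ hb
      omega
    rw [e1] at h4
    rw [e2]
    exact h4

end Pool.Agent.ADV
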